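import Mathlib

namespace Pool.Agent.RP28

open Finset

/-- number of tuples `(x_1,…,x_k)` of natural numbers with `∑ x_j j^d = n` -/
noncomputable def pA (d k n : ℕ) : ℕ :=
  Nat.card {x : Fin k → ℕ // ∑ j, x j * ((j : ℕ) + 1) ^ d = n}

def sol (d k n : ℕ) : Set (Fin k → ℕ) := {x | ∑ j, x j * ((j : ℕ) + 1) ^ d = n}

lemma pA_eq (d k n : ℕ) : pA d k n = (sol d k n).ncard := rfl

lemma sol_finite (d k n : ℕ) : (sol d k n).Finite := by
  have h : (sol d k n) ⊆ Set.pi Set.univ (fun _ : Fin k => (Set.Iic n : Set ℕ)) := by
    intro x hx i _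
    have h1 : x i * ((i : ℕ) + 1) ^ d ≤ ∑ j, x j * ((j : ℕ) + 1) ^ d :=
      Finset.single_le_sum (f := fun j : Fin k => x j * ((j : ℕ) + 1) ^ d)
        (fun _ _ => Nat.zero_le _) (Finset.mem_univ i)
    have h2 : x i ≤ x i * ((i : ℕ) + 1) ^ d := Nat.le_mul_of_pos_right _ (by positivity)
    have h3 : ∑ j, x j * ((j : ℕ) + 1) ^ d = n := hx
    simp only [Set.mem_Iic]
    omega
  exact Set.Finite.subset (Set.Finite.pi' (fun _ => Set.finite_Iic n) |>.subset (by
    intro x hx i; exact hx i (Set.mem_univ i))) h

lemma pA_zero (d n : ℕ) : pA d 0 n = if n = 0 then 1 else 0 := by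
  rw [pA_eq]
  split_ifs with h
  · subst h
    have : sol d 0 0 = {fun i => i.elim0} := by
      ext x
      simp only [sol, Set.mem_ofPred_eq, Set.mem_singleton_iff]
      constructor
      · intro _; ext i; exact i.elim0
      · intro _; simp
    rw [this, Set.ncard_singleton]
  · have : sol d 0 n = ∅ := by
      ext x
      simp only [sol, Set.mem_ofPred_eq, Set.mem_empty_iff_false, iff_false]
      simp; omega
    rw [this, Set.ncard_empty]

lemma pA_succ (d k n : ℕ) :
    pA d (k + 1) n = pA d k n + (if (k + 1) ^ d ≤ n then pA d (k + 1) (n - (k + 1) ^ d) else 0) := by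
  classical
  let f : (Fin k → ℕ) → (Fin (k + 1) → ℕ) := fun x => Fin.snoc x 0
  let g : (Fin (k + 1) → ℕ) → (Fin (k + 1) → ℕ) := fun x => x + Pi.single (Fin.last k) 1
  have hf : Function.Injective f := by
    intro x y h
    ext i
    have := congrFun h (Fin.castSucc i)
    simpa [f] using this
  have hg : Function.Injective g := by
    intro x y h
    exact add_right_cancel h
  have hsumf : ∀ x : Fin k → ℕ, ∑ j, (f x) j * ((j : ℕ) + 1) ^ d = ∑ j, x j * ((j : ℕ) + 1) ^ d := by
    intro x
    rw [Fin.sum_univ_castSucc]
    simp [f]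
  have hsumg : ∀ x : Fin (k + 1) → ℕ, ∑ j, (g x) j * ((j : ℕ) + 1) ^ d
      = ∑ j, x j * ((j : ℕ) + 1) ^ d + (k + 1) ^ d := by
    intro x
    rw [Fin.sum_univ_castSucc, Fin.sum_univ_castSucc]
    have h1 : ∀ i : Fin k, (g x) (Fin.castSucc i) = x (Fin.castSucc i) := by
      intro i
      simp only [g, Pi.add_apply]
      rw [Pi.single_eq_of_ne (Fin.castSucc_lt_last i).ne]
      simp
    have h2 : (g x) (Fin.last k) = x (Fin.last k) + 1 := by
      simp only [g, Pi.add_apply, Pi.single_eq_same]
    rw [h2]
    simp only [h1, Fin.val_last]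
    ring
  split_ifs with h
  · have hset : sol d (k + 1) n = f '' (sol d k n) ∪ g '' (sol d (k + 1) (n - (k + 1) ^ d)) := by
      ext x
      simp only [sol, Set.mem_union, Set.mem_image, Set.mem_ofPred_eq]
      constructor
      · intro hx
        by_cases h0 : x (Fin.last k) = 0
        · left
          refine ⟨fun i => x (Fin.castSucc i), ?_, ?_⟩
          · rw [Fin.sum_univ_castSucc, h0] at hx
            simpa using hx
          · ext i
            refine Fin.lastCases ?_ (fun i => ?_) i
            · simp [f, h0]
            · simp [f]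
        · right
          have hgx : g (fun i => if i = Fin.last k then x i - 1 else x i) = x := by
            ext i
            by_cases hi : i = Fin.last k
            · subst hi
              simp only [g, Pi.add_apply, Pi.single_eq_same, if_true]
              omega
            · simp only [g, Pi.add_apply, if_neg hi, Pi.single_eq_of_ne hi]
              omega
          refine ⟨fun i => if i = Fin.last k then x i - 1 else x i, ?_, hgx⟩
          have h3 := hsumg (fun i => if i = Fin.last k then x i - 1 else x i)
          rw [hgx, hx] at h3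
          beta_reduce at h3 ⊢
          omega
      · rintro (⟨y, hy, rfl⟩ | ⟨y, hy, rfl⟩)
        · rw [hsumf, hy]
        · rw [hsumg, hy]; omega
    have hdisj : Disjoint (f '' (sol d k n)) (g '' (sol d (k + 1) (n - (k + 1) ^ d))) := by
      rw [Set.disjoint_left]
      rintro x ⟨y, _, rfl⟩ ⟨z, _, hz⟩
      have := congrFun hz (Fin.last k)
      simp only [f, g, Pi.add_apply, Pi.single_eq_same, Fin.snoc_last] at this
      omega
    rw [pA_eq, pA_eq, pA_eq, hset, Set.ncard_union_eq hdisj ((sol_finite _ _ _).image _)
      ((sol_finite _ _ _).image _), Set.ncard_image_of_injective _ hf,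
      Set.ncard_image_of_injective _ hg]
  · have hset : sol d (k + 1) n = f '' (sol d k n) := by
      ext x
      simp only [sol, Set.mem_image, Set.mem_ofPred_eq]
      constructor
      · intro hx
        have h0 : x (Fin.last k) = 0 := by
          by_contra h0
          rw [Fin.sum_univ_castSucc] at hx
          simp only [Fin.val_last] at hx
          have : (k + 1) ^ d ≤ x (Fin.last k) * (k + 1) ^ d :=
            Nat.le_mul_of_pos_left _ (Nat.pos_of_ne_zero h0)
          omega
        refine ⟨fun i => x (Fin.castSucc i), ?_, ?_⟩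
        · rw [Fin.sum_univ_castSucc, h0] at hx
          simpa using hx
        · ext i
          refine Fin.lastCases ?_ (fun i => ?_) i
          · simp [f, h0]
          · simp [f]
      · rintro ⟨y, hy, rfl⟩
        rw [hsumf, hy]
    rw [pA_eq, pA_eq, hset, Set.ncard_image_of_injective _ hf]
    simp

open PowerSeries in
lemma series_mul (F : Type*) [CommRing F] (d k : ℕ) :
    (PowerSeries.mk (fun n => (pA d k n : F))) *
      ∏ j ∈ Finset.range k, (1 - (X : F⟦X⟧) ^ ((j + 1) ^ d)) = 1 := by
  induction k with
  | zero =>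
    simp only [Finset.range_zero, Finset.prod_empty, mul_one]
    ext n
    simp only [coeff_mk, pA_zero, coeff_one]
    split_ifs <;> simp
  | succ k ih =>
    have h : (PowerSeries.mk (fun n => (pA d (k + 1) n : F))) * (1 - (X : F⟦X⟧) ^ ((k + 1) ^ d))
        = PowerSeries.mk (fun n => (pA d k n : F)) := by
      ext n
      rw [mul_sub, mul_one, map_sub, coeff_mul_X_pow', coeff_mk, coeff_mk, pA_succ d k n]
      split_ifs with h1
      · rw [coeff_mk]; push_cast; ring
      · simp
    rw [Finset.prod_range_succ, mul_comm (∏ j ∈ Finset.range k, _), ← mul_assoc, h, ih]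

end Pool.Agent.RP28
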