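import Mathlib
import Pool.Agent.RP28.Count

namespace Pool.Agent.RP28

open Finset Polynomial

/-- `h j = q^(d * v_q(j))` for `j > 0`, `h 0 = 0`. -/
def hh (q d j : ℕ) : ℕ := if j = 0 then 0 else q ^ (d * j.factorization q)

lemma hh_mul (q d n : ℕ) (hq : q.Prime) : hh q d (q * n) = q ^ d * hh q d n := by
  unfold hh
  by_cases h : n = 0
  · simp [h]
  · have h1 : q * n ≠ 0 := Nat.mul_ne_zero hq.ne_zero h
    rw [if_neg h1, if_neg h, Nat.factorization_mul hq.ne_zero h, Finsupp.add_apply,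
      hq.factorization_self]
    ring

lemma hh_one (q d n b : ℕ) (hb : b + 1 < q) : hh q d (q * n + (b + 1)) = 1 := by
  unfold hh
  rw [if_neg (by omega)]
  have : ¬ q ∣ q * n + (b + 1) := by
    intro h
    have h2 : q ∣ b + 1 := (Nat.dvd_add_right (Dvd.intro n rfl)).mp h
    exact absurd (Nat.le_of_dvd (by omega) h2) (by omega)
  rw [Nat.factorization_eq_zero_of_not_dvd this]
  simp

lemma sum_mul (q d n : ℕ) (hq : q.Prime) :
    ∑ j ∈ range (q * n), hh q d j = q ^ d * ∑ j ∈ range n, hh q d j + (q - 1) * n := by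
  induction n with
  | zero => simp
  | succ n ih =>
    obtain ⟨r, hr⟩ : ∃ r, q = r + 1 := ⟨q - 1, by have := hq.two_le; omega⟩
    have h1 : ∑ b ∈ range q, hh q d (q * n + b) = q ^ d * hh q d n + (q - 1) := by
      have : range q = range (r + 1) := by rw [hr]
      rw [this, Finset.sum_range_succ', Nat.add_zero, hh_mul q d n hq]
      have h2 : ∑ b ∈ range r, hh q d (q * n + (b + 1)) = ∑ b ∈ range r, 1 := by
        apply Finset.sum_congr rfl
        intro b hb
        rw [mem_range] at hb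
        exact hh_one q d n b (by omega)
      rw [h2, Finset.sum_const, card_range]
      have : q - 1 = r := by omega
      rw [this]; simp; ring
    rw [Nat.mul_succ, Finset.sum_range_add, ih, h1, Finset.sum_range_succ]
    ring

lemma sum_bound (q d v : ℕ) (hq : q.Prime) (hd : 2 ≤ d) :
    ∑ j ∈ range (2 * q ^ v), hh q d j + q ^ v ≤ 2 * q ^ (v * d) := by
  have h2 := hq.two_le
  induction v with
  | zero =>
    simp [Finset.sum_range_succ, hh]
  | succ v ih =>
    have e1 : 2 * q ^ (v + 1) = q * (2 * q ^ v) := by ring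
    rw [e1, sum_mul q d _ hq]
    have e2 : q ^ ((v + 1) * d) = q ^ d * q ^ (v * d) := by rw [← pow_add]; congr 1; ring
    rw [e2]
    obtain ⟨r, hr⟩ : ∃ r, q = r + 2 := ⟨q - 2, by omega⟩
    have e3 : q - 1 = r + 1 := by omega
    have h3 : q ^ 2 ≤ q ^ d := Nat.pow_le_pow_right (by omega) hd
    have h4 : q ^ d * (∑ j ∈ range (2 * q ^ v), hh q d j + q ^ v) ≤ q ^ d * (2 * q ^ (v * d)) :=
      Nat.mul_le_mul_left _ ih
    have h5 : (q - 1) * (2 * q ^ v) + q ^ (v + 1) ≤ q ^ 2 * q ^ v := by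
      rw [e3, pow_succ, hr]
      have : (r + 1) * 2 + (r + 2) ≤ (r + 2) ^ 2 := by nlinarith
      calc (r + 1) * (2 * (r + 2) ^ v) + (r + 2) ^ v * (r + 2)
          = ((r + 1) * 2 + (r + 2)) * (r + 2) ^ v := by ring
        _ ≤ (r + 2) ^ 2 * (r + 2) ^ v := Nat.mul_le_mul_right _ this
    have h6 : q ^ 2 * q ^ v ≤ q ^ d * q ^ v := Nat.mul_le_mul_right _ h3
    nlinarith

lemma erase_bound (q d v k : ℕ) (hq : q.Prime) (hd : 2 ≤ d) (h1 : q ^ v ≤ k) (h2 : k < 2 * q ^ v) :
    ∑ j ∈ (Icc 1 k).erase (q ^ v), q ^ (d * j.factorization q) ≤ q ^ (v * d) := by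
  have hmem : q ^ v ∈ Icc 1 k := by
    rw [mem_Icc]; exact ⟨Nat.one_le_pow _ _ hq.pos, h1⟩
  have h3 := sum_bound q d v hq hd
  have h4 : ∑ j ∈ (Icc 1 k).erase (q ^ v), q ^ (d * j.factorization q) + q ^ (v * d)
      = ∑ j ∈ Icc 1 k, q ^ (d * j.factorization q) := by
    rw [← Finset.sum_erase_add _ _ hmem]
    congr 1
    rw [hq.factorization_pow]
    simp [mul_comm]
  have h5 : ∑ j ∈ Icc 1 k, q ^ (d * j.factorization q) ≤ ∑ j ∈ range (2 * q ^ v), hh q d j := by
    have : ∑ j ∈ Icc 1 k, q ^ (d * j.factorization q) = ∑ j ∈ Icc 1 k, hh q d j := by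
      apply Finset.sum_congr rfl
      intro j hj
      rw [mem_Icc] at hj
      unfold hh
      rw [if_neg (by omega)]
    rw [this]
    apply Finset.sum_le_sum_of_subset
    intro j hj
    rw [mem_Icc] at hj
    rw [mem_range]; omega
  omega

variable (q : ℕ) [hq : Fact q.Prime]

lemma factor_dvd (d j A : ℕ) (hj : j ≠ 0) (hA : (ordCompl[q] j) ^ d ∣ A) :
    (1 - X ^ (j ^ d) : (ZMod q)[X]) ∣ (1 - X ^ A) ^ (q ^ (d * j.factorization q)) := by
  have h1 : j ^ d = (ordCompl[q] j) ^ d * q ^ (d * j.factorization q) := by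
    conv_lhs => rw [← Nat.ordProj_mul_ordCompl_eq_self j q]
    rw [mul_pow, ← pow_mul, mul_comm, mul_comm d]
  have h2 : (1 - X ^ (j ^ d) : (ZMod q)[X])
      = (1 - X ^ ((ordCompl[q] j) ^ d)) ^ (q ^ (d * j.factorization q)) := by
    rw [sub_pow_char_pow, one_pow, ← pow_mul, ← h1]
  rw [h2]
  apply pow_dvd_pow_of_dvd
  obtain ⟨c, hc⟩ := hA
  rw [hc, pow_mul]
  exact one_sub_dvd_one_sub_pow _ _

end Pool.Agent.RP28
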