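import Mathlib
import Pool.Agent.RP28.Count
import Pool.Agent.RP28.Alg

namespace Pool.Agent.RP28

open Finset Polynomial

lemma prod_Icc_eq {M : Type*} [CommMonoid M] (f : ℕ → M) (k : ℕ) :
    ∏ j ∈ Icc 1 k, f j = ∏ j ∈ range k, f (j + 1) := by
  induction k with
  | zero => simp
  | succ k ih =>
    rw [Finset.prod_Icc_succ_top (by omega), ih, Finset.prod_range_succ]

/-- `e'(q,d,v,k) = ∑_{j ≤ k, j ≠ q^v} q^(d * v_q(j))` -/
def ee (q d v k : ℕ) : ℕ := ∑ j ∈ (Icc 1 k).erase (q ^ v), q ^ (d * j.factorization q)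

/-- number of `l < m` with `q ∤ C(m-1, l)` -/
def cc (q m : ℕ) : ℕ := ((range m).filter (fun l => ¬ q ∣ (m - 1).choose l)).card

section
variable (q : ℕ) [hq : Fact q.Prime]

noncomputable def geom (m : ℕ) : (ZMod q)[X] := ∑ t ∈ range m, X ^ t

lemma geom_mul (m : ℕ) : (1 - X) * geom q m = 1 - X ^ m := by
  unfold geom; exact mul_neg_geom_sum X m

lemma geom_eval (m : ℕ) : (geom q m).eval 1 = (m : ZMod q) := by
  unfold geom
  rw [Polynomial.eval_finsetSum]
  simp

lemma one_sub_X_ne : (1 - X : (ZMod q)[X]) ≠ 0 := by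
  intro h
  have := congrArg (Polynomial.coeff · 1) h
  simp [Polynomial.coeff_one] at this

lemma geom_dvd (m A : ℕ) (h : m ∣ A) : geom q m ∣ geom q A := by
  obtain ⟨c, rfl⟩ := h
  have h1 : (1 - X ^ m : (ZMod q)[X]) ∣ 1 - X ^ (m * c) := by
    rw [pow_mul]; exact one_sub_dvd_one_sub_pow _ _
  rw [← geom_mul, ← geom_mul] at h1
  exact (mul_dvd_mul_iff_left (one_sub_X_ne q)).mp h1

lemma factor_eq (d j : ℕ) :
    (1 - X ^ (j ^ d) : (ZMod q)[X])
      = (1 - X) ^ (q ^ (d * j.factorization q)) * (geom q ((ordCompl[q] j) ^ d)) ^ (q ^ (d * j.factorization q)) := by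
  have h1 : j ^ d = (ordCompl[q] j) ^ d * q ^ (d * j.factorization q) := by
    conv_lhs => rw [← Nat.ordProj_mul_ordCompl_eq_self j q]
    rw [mul_pow, ← pow_mul, mul_comm, mul_comm d]
  rw [← mul_pow, geom_mul, sub_pow_char_pow, one_pow, ← pow_mul, ← h1]

lemma structure2 (d k v : ℕ) (hd : 2 ≤ d) (hv : 1 ≤ v) (h1 : q ^ v ≤ k) (h2 : k < 2 * q ^ v) :
    ∃ (A n0 : ℕ) (b : ℕ → ZMod q) (κ : ZMod q), 0 < A ∧ κ ≠ 0 ∧
      (∀ n, (pA d k (n + A * q ^ (v * d)) : ZMod q) = (pA d k n : ZMod q) + b (n + A * q ^ (v * d))) ∧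
      (∀ n, n0 ≤ n → b (n + q ^ (v * d)) = b n) ∧
      (∀ n, n0 ≤ n → ee q d v k ≤ n →
        ∑ l ∈ range (ee q d v k), (-1) ^ l * ((ee q d v k - 1).choose l : ZMod q) * b (n - l) = κ) := by
  classical
  set N := q ^ (v * d) with hN
  set e := ee q d v k with he
  have hqp : q.Prime := hq.out
  have hNpos : 0 < N := Nat.pow_pos hqp.pos
  have heN : e ≤ N := erase_bound q d v k hqp hd h1 h2
  set A : ℕ := ∏ j ∈ Icc 1 k, (ordCompl[q] j) ^ d with hA
  have hAcop : Nat.Coprime q A := by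
    rw [hA]
    apply Nat.Coprime.prod_right
    intro j hj
    rw [mem_Icc] at hj
    apply Nat.Coprime.pow_right
    exact Nat.coprime_ordCompl hqp (by omega)
  have hApos : 0 < A := by
    rw [hA]
    apply Finset.prod_pos
    intro j hj
    rw [mem_Icc] at hj
    exact Nat.pow_pos (Nat.ordCompl_pos q (by omega))
  have hA0 : (A : ZMod q) ≠ 0 := by
    intro h
    rw [ZMod.natCast_eq_zero_iff] at h
    have := Nat.Coprime.eq_one_of_dvd hAcop h
    exact hqp.one_lt.ne' this
  have hmem : q ^ v ∈ Icc 1 k := by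
    rw [mem_Icc]; exact ⟨Nat.one_le_pow _ _ hqp.pos, h1⟩
  have hone : 1 ∈ (Icc 1 k).erase (q ^ v) := by
    rw [mem_erase, mem_Icc]
    have : 1 < q ^ v := Nat.one_lt_pow (by omega) hqp.one_lt
    omega
  have he1 : 1 ≤ e := by
    rw [he]; unfold ee
    have := Finset.single_le_sum (f := fun j => q ^ (d * j.factorization q))
      (fun _ _ => Nat.zero_le _) hone
    exact le_trans (Nat.one_le_pow _ _ hqp.pos) this
  -- the polynomials D, U, G, W
  set D : (ZMod q)[X] := ∏ j ∈ (Icc 1 k).erase (q ^ v), (1 - X ^ (j ^ d)) with hD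
  set U : (ZMod q)[X] := ∏ j ∈ (Icc 1 k).erase (q ^ v),
    (geom q ((ordCompl[q] j) ^ d)) ^ (q ^ (d * j.factorization q)) with hU
  have hDU : D = (1 - X) ^ e * U := by
    rw [hD, hU, he]; unfold ee
    rw [← Finset.prod_pow_eq_pow_sum, ← Finset.prod_mul_distrib]
    apply Finset.prod_congr rfl
    intro j _
    exact factor_eq q d j
  set G : (ZMod q)[X] := (geom q A) ^ N with hG
  have hG1 : G.eval 1 = (A : ZMod q) ^ N := by
    rw [hG, Polynomial.eval_pow, geom_eval]
  have hG0 : G.eval 1 ≠ 0 := by rw [hG1]; exact pow_ne_zero _ hA0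
  have hUG : U ∣ G := by
    have hs : U ∣ ∏ j ∈ (Icc 1 k).erase (q ^ v), (geom q A) ^ (q ^ (d * j.factorization q)) := by
      rw [hU]
      apply Finset.prod_dvd_prod_of_dvd
      intro j hj
      rw [mem_erase, mem_Icc] at hj
      apply pow_dvd_pow_of_dvd
      apply geom_dvd
      rw [hA]
      exact Finset.dvd_prod_of_mem (fun j => (ordCompl[q] j) ^ d) (by rw [mem_Icc]; exact hj.2)
    rw [Finset.prod_pow_eq_pow_sum] at hs
    exact hs.trans (pow_dvd_pow _ heN)
  obtain ⟨W, hW⟩ := hUG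
  have hW0 : W.eval 1 ≠ 0 := by
    intro h
    apply hG0
    rw [hW, Polynomial.eval_mul, h, mul_zero]
  have hU0 : U ≠ 0 := by
    rintro h
    apply hG0
    rw [hW, h, zero_mul, Polynomial.eval_zero]
  have hpow : ∀ a : ℕ, (1 - X ^ a : (ZMod q)[X]) ^ N = 1 - X ^ (a * N) := by
    intro a
    rw [hN, sub_pow_char_pow, one_pow, ← pow_mul]
  have hpow1 : (1 - X : (ZMod q)[X]) ^ N = 1 - X ^ N := by
    have := hpow 1
    rwa [pow_one, one_mul] at this
  have hGmul : (1 - X ^ N : (ZMod q)[X]) * G = 1 - X ^ (A * N) := by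
    rw [hG, ← hpow1, ← mul_pow, geom_mul, hpow]
  have hDprod : (∏ j ∈ Icc 1 k, (1 - X ^ (j ^ d)) : (ZMod q)[X]) = D * (1 - X ^ N) := by
    rw [hD, ← Finset.prod_erase_mul _ _ hmem]
    congr 3
    rw [hN, ← pow_mul]
  -- the series
  set S : PowerSeries (ZMod q) := PowerSeries.mk (fun n => (pA d k n : ZMod q)) with hS
  have hSD : S * ((D * (1 - X ^ N) : (ZMod q)[X]) : PowerSeries (ZMod q)) = 1 := by
    rw [← hDprod, prod_Icc_eq]
    have := series_mul (ZMod q) d k
    rw [← this]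
    congr 1
    rw [← Polynomial.coeToPowerSeries.ringHom_apply, map_prod]
    apply Finset.prod_congr rfl
    intro j _
    simp
  set B : PowerSeries (ZMod q) := S * ((1 - X ^ (A * N) : (ZMod q)[X]) : PowerSeries (ZMod q)) with hB
  have hB2 : B * (D : PowerSeries (ZMod q)) = (G : PowerSeries (ZMod q)) := by
    rw [hB, ← hGmul]
    calc S * (((1 - X ^ N) * G : (ZMod q)[X]) : PowerSeries (ZMod q)) * (D : PowerSeries (ZMod q))
        = (S * ((D * (1 - X ^ N) : (ZMod q)[X]) : PowerSeries (ZMod q))) * (G : PowerSeries (ZMod q)) := by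
          rw [Polynomial.coe_mul, Polynomial.coe_mul]; ring
      _ = (G : PowerSeries (ZMod q)) := by rw [hSD, one_mul]
  have hUc : (U : PowerSeries (ZMod q)) ≠ 0 := by
    intro h
    apply hU0
    exact Polynomial.coe_injective (ZMod q) (by rw [h, Polynomial.coe_zero])
  have hBW : B * (((1 - X) ^ e : (ZMod q)[X]) : PowerSeries (ZMod q)) = (W : PowerSeries (ZMod q)) := by
    apply mul_right_cancel₀ hUc
    rw [mul_assoc, ← Polynomial.coe_mul, ← Polynomial.coe_mul, ← hDU, hB2, hW, mul_comm]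
  have hcoeX : ∀ m : ℕ, ((1 - X ^ m : (ZMod q)[X]) : PowerSeries (ZMod q))
      = 1 - (PowerSeries.X : PowerSeries (ZMod q)) ^ m := by
    intro m; simp
  have hcoeX1 : ∀ m : ℕ, (((1 - X) ^ m : (ZMod q)[X]) : PowerSeries (ZMod q))
      = (1 - (PowerSeries.X : PowerSeries (ZMod q))) ^ m := by
    intro m; simp
  set C : (ZMod q)[X] := (1 - X) ^ (N - e) * W with hC
  have hB1 : ((1 - X ^ N : (ZMod q)[X]) : PowerSeries (ZMod q)) * B = (C : PowerSeries (ZMod q)) := by
    have e3 : (1 - X : (ZMod q)[X]) ^ N = (1 - X) ^ (N - e) * (1 - X) ^ e := by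
      rw [← pow_add]; congr 1; omega
    rw [← hpow1, e3, hC, Polynomial.coe_mul, Polynomial.coe_mul, ← hBW]
    ring
  -- E = (1-X)^(e-1) B
  set E : PowerSeries (ZMod q) := (1 - (PowerSeries.X : PowerSeries (ZMod q))) ^ (e - 1) * B with hE
  have hEW : (1 - (PowerSeries.X : PowerSeries (ZMod q))) * E = (W : PowerSeries (ZMod q)) := by
    rw [hE, ← hBW, hcoeX1, ← mul_assoc, ← pow_succ', Nat.sub_add_cancel he1, mul_comm]
  have hEcoef : ∀ n, PowerSeries.coeff n E = ∑ l ∈ range (n + 1), W.coeff l := by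
    intro n
    induction n with
    | zero =>
      have h3 : PowerSeries.coeff 0 ((1 - (PowerSeries.X : PowerSeries (ZMod q))) * E) = W.coeff 0 := by
        rw [hEW, Polynomial.coeff_coe]
      rw [sub_mul, one_mul, map_sub, PowerSeries.coeff_zero_X_mul, sub_zero] at h3
      rw [h3]; simp
    | succ n ih =>
      have h3 : PowerSeries.coeff (n + 1) ((1 - (PowerSeries.X : PowerSeries (ZMod q))) * E)
          = W.coeff (n + 1) := by
        rw [hEW, Polynomial.coeff_coe]
      rw [sub_mul, one_mul, map_sub, PowerSeries.coeff_succ_X_mul, ih] at h3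
      rw [Finset.sum_range_succ, ← h3]; ring
  have hEexp : ∀ n, e ≤ n → PowerSeries.coeff n E
      = ∑ l ∈ range e, (-1) ^ l * ((e - 1).choose l : ZMod q) * PowerSeries.coeff (n - l) B := by
    intro n hn
    have h4 : (1 - (PowerSeries.X : PowerSeries (ZMod q))) ^ (e - 1)
        = ∑ l ∈ range e, PowerSeries.C ((-1) ^ l * ((e - 1).choose l : ZMod q)) * PowerSeries.X ^ l := by
      have h5 : (1 - (PowerSeries.X : PowerSeries (ZMod q))) = (-PowerSeries.X + 1) := by ring
      rw [h5, add_pow, Nat.sub_add_cancel he1]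
      apply Finset.sum_congr rfl
      intro l _
      rw [one_pow, mul_one, neg_pow]
      simp only [map_mul, map_pow, map_neg, map_one, map_natCast]
      ring
    rw [hE, h4, Finset.sum_mul, map_sum]
    apply Finset.sum_congr rfl
    intro l hl
    rw [mem_range] at hl
    rw [mul_assoc, PowerSeries.coeff_C_mul, PowerSeries.coeff_X_pow_mul', if_pos (by omega)]
  refine ⟨A, max C.natDegree W.natDegree, fun n => PowerSeries.coeff n B, W.eval 1, hApos, hW0,
    ?_, ?_, ?_⟩
  · intro n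
    have : PowerSeries.coeff (n + A * N) B
        = (pA d k (n + A * N) : ZMod q) - (pA d k n : ZMod q) := by
      rw [hB, hcoeX, mul_sub, mul_one, map_sub, PowerSeries.coeff_mul_X_pow, hS,
        PowerSeries.coeff_mk, PowerSeries.coeff_mk]
    change _ = _ + PowerSeries.coeff (n + A * N) B
    rw [this]; ring
  · intro n hn
    have hn' : C.natDegree ≤ n := le_trans (le_max_left _ _) hn
    have h3 : PowerSeries.coeff (n + N) (((1 - X ^ N : (ZMod q)[X]) : PowerSeries (ZMod q)) * B) = 0 := by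
      rw [hB1, Polynomial.coeff_coe]
      exact Polynomial.coeff_eq_zero_of_natDegree_lt (by omega)
    rw [hcoeX, sub_mul, one_mul, map_sub, mul_comm, PowerSeries.coeff_mul_X_pow] at h3
    exact sub_eq_zero.mp h3
  · intro n hn hen
    have hn' : W.natDegree ≤ n := le_trans (le_max_right _ _) hn
    change ∑ l ∈ range e, (-1) ^ l * ((e - 1).choose l : ZMod q) * PowerSeries.coeff (n - l) B = _
    rw [← hEexp n hen, hEcoef n, Polynomial.eval_eq_sum_range' (n := n + 1) (by omega)]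
    simp

end

end Pool.Agent.RP28
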