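import Mathlib
import Pool.Agent.RP28.Count
import Pool.Agent.RP28.Alg
import Pool.Agent.RP28.Struct
import Pool.Agent.RP28.Dens

namespace Pool.Agent.RP28

open Finset Polynomial

section
variable (q : ℕ) [hq : Fact q.Prime]

lemma main_count2 (d k v : ℕ) (hd : 2 ≤ d) (hv : 1 ≤ v) (h1 : q ^ v ≤ k) (h2 : k < 2 * q ^ v) :
    ∃ (A M y : ℕ), 0 < A ∧
      (∀ n, M ≤ n → (pA d k (n + q * (A * q ^ (v * d))) : ZMod q) = (pA d k n : ZMod q)) ∧
      q ^ (v * d) ≤ y * cc q (ee q d v k) ∧
      ∀ i : ZMod q, y * A ≤ ((Ico M (M + q * (A * q ^ (v * d)))).filter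
        (fun n => (pA d k n : ZMod q) = i)).card := by
  classical
  obtain ⟨A, M, b, κ, hA, hκ, hs, hb, hk⟩ := structure2 q d k v hd hv h1 h2
  set N := q ^ (v * d) with hN
  set e := ee q d v k with he
  have hqp : q.Prime := hq.out
  have hNpos : 0 < N := Nat.pow_pos hqp.pos
  have hbN : ∀ a n, M ≤ n → b (n + a * N) = b n := by
    intro a
    induction a with
    | zero => intro n _; simp
    | succ a ih =>
      intro n hn
      have : n + (a + 1) * N = (n + a * N) + N := by ring
      rw [this, hb _ (by omega), ih n hn]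
  have hst : ∀ t n, M ≤ n → (pA d k (n + t * (A * N)) : ZMod q) = (pA d k n : ZMod q) + t * b n := by
    intro t
    induction t with
    | zero => intro n _; simp
    | succ t ih =>
      intro n hn
      have e1 : n + (t + 1) * (A * N) = (n + t * (A * N)) + A * N := by ring
      have e2 : (n + t * (A * N)) + A * N = n + ((t + 1) * A) * N := by ring
      rw [e1, hs, ih n hn, e2, hbN _ n hn]
      push_cast; ring
  set Y : Finset ℕ := (Ico M (M + N)).filter (fun n => b n ≠ 0) with hY
  set Z : Finset ℕ := (range e).filter (fun l => ¬ q ∣ (e - 1).choose l) with hZ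
  refine ⟨A, M, Y.card, hA, ?_, ?_, ?_⟩
  · intro n hn
    rw [hst q n (by omega)]
    simp
  · -- covering
    have hsub : range N ⊆ (Y ×ˢ Z).image (fun p => (p.1 + p.2) % N) := by
      intro r hr
      rw [mem_range] at hr
      set n := r + (M + e) * N with hn
      have hMe : M + e ≤ (M + e) * N := Nat.le_mul_of_pos_right _ hNpos
      have hsum := hk n (by omega) (by omega)
      have hne : ∑ l ∈ range e, (-1) ^ l * ((e - 1).choose l : ZMod q) * b (n - l) ≠ 0 := by
        rw [hsum]; exact hκ
      obtain ⟨l, hl, hl2⟩ := Finset.exists_ne_zero_of_sum_ne_zero hne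
      rw [mem_range] at hl
      have hC : ((e - 1).choose l : ZMod q) ≠ 0 := by
        intro h; apply hl2; rw [h]; ring
      have hb0 : b (n - l) ≠ 0 := by
        intro h; apply hl2; rw [h]; ring
      have hMl : M ≤ n - l := by omega
      set y := M + (n - l - M) % N with hy
      have hdm := Nat.mod_add_div (n - l - M) N
      have hyn : n - l = y + ((n - l - M) / N) * N := by
        rw [hy, mul_comm]; omega
      have hby : b y ≠ 0 := by
        rw [hyn, hbN _ y (by omega)] at hb0
        exact hb0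
      rw [mem_image]
      refine ⟨(y, l), ?_, ?_⟩
      · rw [mem_product, hY, hZ, mem_filter, mem_filter, mem_Ico, mem_range]
        refine ⟨⟨⟨by omega, ?_⟩, hby⟩, hl, ?_⟩
        · have := Nat.mod_lt (n - l - M) hNpos
          omega
        · intro h
          apply hC
          rw [ZMod.natCast_eq_zero_iff]; exact h
      · have h3 : y + l + ((n - l - M) / N) * N = r + (M + e) * N := by omega
        have h4 : (y + l + ((n - l - M) / N) * N) % N = (r + (M + e) * N) % N := by rw [h3]
        rw [Nat.add_mul_mod_self_right, Nat.add_mul_mod_self_right, Nat.mod_eq_of_lt hr] at h4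
        exact h4
    have hcard := Finset.card_le_card hsub
    rw [card_range] at hcard
    refine hcard.trans (Finset.card_image_le.trans ?_)
    rw [card_product, hZ]
    exact le_refl _
  · intro i
    have hchoice : ∀ p : ℕ × ℕ, p ∈ Y ×ˢ range A → ∃ t : ℕ, t < q ∧
        (pA d k (p.1 + p.2 * N + t * (A * N)) : ZMod q) = i := by
      rintro ⟨y, a⟩ hp
      rw [mem_product, hY, mem_filter, mem_Ico] at hp
      have hby : b y ≠ 0 := hp.1.2
      have hMy : M ≤ y := hp.1.1.1
      set z : ZMod q := (i - (pA d k (y + a * N) : ZMod q)) / b y with hz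
      refine ⟨z.val, ZMod.val_lt z, ?_⟩
      simp only
      rw [hst _ _ (by omega), hbN a y hMy, ZMod.natCast_zmod_val, hz, div_mul_cancel₀ _ hby]
      ring
    choose! t ht using hchoice
    have hinj : Set.InjOn (fun p : ℕ × ℕ => p.1 + p.2 * N + t p * (A * N)) (Y ×ˢ range A : Finset (ℕ × ℕ)) := by
      rintro ⟨y, a⟩ hp ⟨y', a'⟩ hp' h
      rw [mem_coe, mem_product, hY, mem_filter, mem_Ico, mem_range] at hp hp'
      simp only at h hp hp'
      set t1 := t (y, a)
      set t2 := t (y', a')
      have h3 : y + (a + t1 * A) * N = y' + (a' + t2 * A) * N := by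
        have e1 : y + (a + t1 * A) * N = y + a * N + t1 * (A * N) := by ring
        have e2 : y' + (a' + t2 * A) * N = y' + a' * N + t2 * (A * N) := by ring
        rw [e1, e2]; exact h
      have hy1 : y = M + (y - M) := by omega
      have hy2 : y' = M + (y' - M) := by omega
      have h5 : (y - M) + (a + t1 * A) * N = (y' - M) + (a' + t2 * A) * N := by omega
      have h6 : ((y - M) + (a + t1 * A) * N) % N = ((y' - M) + (a' + t2 * A) * N) % N := by rw [h5]
      rw [Nat.add_mul_mod_self_right, Nat.add_mul_mod_self_right,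
        Nat.mod_eq_of_lt (by omega : y - M < N), Nat.mod_eq_of_lt (by omega : y' - M < N)] at h6
      have hyy : y = y' := by omega
      have h7 : (a + t1 * A) * N = (a' + t2 * A) * N := by omega
      have h8 : a + t1 * A = a' + t2 * A := Nat.eq_of_mul_eq_mul_right hNpos h7
      have h9 : (a + t1 * A) % A = (a' + t2 * A) % A := by rw [h8]
      rw [Nat.add_mul_mod_self_right, Nat.add_mul_mod_self_right, Nat.mod_eq_of_lt hp.2,
        Nat.mod_eq_of_lt hp'.2] at h9
      rw [hyy, h9]
    have hsub : (Y ×ˢ range A).image (fun p : ℕ × ℕ => p.1 + p.2 * N + t p * (A * N)) ⊆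
        (Ico M (M + q * (A * N))).filter (fun n => (pA d k n : ZMod q) = i) := by
      intro n hn
      rw [mem_image] at hn
      obtain ⟨⟨y, a⟩, hp, rfl⟩ := hn
      have ht' := ht (y, a) hp
      rw [mem_product, hY, mem_filter, mem_Ico, mem_range] at hp
      simp only at hp
      rw [mem_filter, mem_Ico]
      refine ⟨⟨?_, ?_⟩, ht'.2⟩
      · have := hp.1.1.1
        simp only; omega
      · simp only
        have h7 : (a + 1) * N ≤ A * N := Nat.mul_le_mul_right _ (by omega)
        have h7' : (a + 1) * N = a * N + N := by ring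
        have h8 : t (y, a) * (A * N) ≤ (q - 1) * (A * N) :=
          Nat.mul_le_mul_right _ (by have := ht'.1; omega)
        have h9 : (q - 1) * (A * N) + A * N = q * (A * N) := by
          obtain ⟨r, hr⟩ : ∃ r, q = r + 1 := ⟨q - 1, by have := hqp.two_le; omega⟩
          rw [hr]; simp; ring
        have := hp.1.1.2
        omega
    calc Y.card * A = ((Y ×ˢ range A).image (fun p : ℕ × ℕ => p.1 + p.2 * N + t p * (A * N))).card := by
          rw [Finset.card_image_of_injOn hinj, card_product, card_range]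
      _ ≤ _ := Finset.card_le_card hsub

open Filter in
theorem density_bounds (d k v : ℕ) (hd : 2 ≤ d) (hv : 1 ≤ v) (h1 : q ^ v ≤ k) (h2 : k < 2 * q ^ v)
    (i : ℕ) (hi : i < q) :
    ∃ δ : ℝ, Tendsto (fun N : ℕ => (((Icc 1 N).filter (fun n => pA d k n % q = i)).card : ℝ) / N)
        atTop (nhds δ) ∧
      1 / ((q : ℝ) * cc q (ee q d v k)) ≤ δ ∧
      δ ≤ 1 - ((q : ℝ) - 1) / ((q : ℝ) * cc q (ee q d v k)) := by
  classical
  obtain ⟨A, M, y, hA, hper, hcov, hcard⟩ := main_count2 q d k v hd hv h1 h2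
  have hqp : q.Prime := hq.out
  have hNpos : 0 < q ^ (v * d) := Nat.pow_pos hqp.pos
  have hiff : ∀ n, (pA d k n % q = i) ↔ ((pA d k n : ZMod q) = (i : ZMod q)) := by
    intro n
    rw [ZMod.natCast_eq_natCast_iff', Nat.mod_eq_of_lt hi]
  have hQ : 0 < q * (A * q ^ (v * d)) :=
    Nat.mul_pos hqp.pos (Nat.mul_pos hA hNpos)
  have hd' := dens (fun n => pA d k n % q = i) (q * (A * q ^ (v * d))) M hQ (by
    intro n hn
    rw [hiff, hiff, hper n hn])
  set W := Ico M (M + q * (A * q ^ (v * d))) with hW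
  have hfil : W.filter (fun n => pA d k n % q = i)
      = W.filter (fun n => (pA d k n : ZMod q) = (i : ZMod q)) := by
    apply Finset.filter_congr
    intro n _
    exact hiff n
  have hc := hcard (i : ZMod q)
  rw [← hfil] at hc
  set g := (W.filter (fun n => pA d k n % q = i)).card with hg
  -- upper bound
  have hup : g + (q - 1) * (y * A) ≤ q * (A * q ^ (v * d)) := by
    have h3 : W.card = ∑ c ∈ (Finset.univ : Finset (ZMod q)),
        (W.filter (fun n => (pA d k n : ZMod q) = c)).card :=
      Finset.card_eq_sum_card_fiberwise (fun x _ => by simp)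
    have h4 : W.card = q * (A * q ^ (v * d)) := by rw [hW]; simp
    rw [← Finset.add_sum_erase _ _ (Finset.mem_univ (i : ZMod q)), ← hfil, h4] at h3
    have h5 : (q - 1) * (y * A) ≤ ∑ c ∈ (Finset.univ : Finset (ZMod q)).erase (i : ZMod q),
        (W.filter (fun n => (pA d k n : ZMod q) = c)).card := by
      have h6 := Finset.card_nsmul_le_sum ((Finset.univ : Finset (ZMod q)).erase (i : ZMod q))
        (fun c => (W.filter (fun n => (pA d k n : ZMod q) = c)).card) (y * A)
        (fun c _ => hcard c)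
      rw [Finset.card_erase_of_mem (Finset.mem_univ _), Finset.card_univ, ZMod.card,
        smul_eq_mul] at h6
      exact h6
    omega
  have hcpos : 0 < cc q (ee q d v k) := by
    rcases Nat.eq_zero_or_pos (cc q (ee q d v k)) with h | h
    · rw [h, mul_zero] at hcov; omega
    · exact h
  have hqr : (0 : ℝ) < q := by exact_mod_cast hqp.pos
  have hq1 : (1 : ℝ) ≤ q := by exact_mod_cast hqp.one_lt.le
  have hAr : (0 : ℝ) < A := by exact_mod_cast hA
  have hNr : (0 : ℝ) < (q : ℝ) ^ (v * d) := by positivity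
  have hcr : (0 : ℝ) < cc q (ee q d v k) := by exact_mod_cast hcpos
  have hQr : (0 : ℝ) < ((q * (A * q ^ (v * d)) : ℕ) : ℝ) := by exact_mod_cast hQ
  have hcovr : (q : ℝ) ^ (v * d) ≤ y * cc q (ee q d v k) := by exact_mod_cast hcov
  have hc2 : (y : ℝ) * (A : ℝ) ≤ (g : ℝ) := by exact_mod_cast hc
  have hup2 : (g : ℝ) + ((q : ℝ) - 1) * (y * A) ≤ ((q * (A * q ^ (v * d)) : ℕ) : ℝ) := by
    have h7 : ((g + (q - 1) * (y * A) : ℕ) : ℝ) ≤ ((q * (A * q ^ (v * d)) : ℕ) : ℝ) := by
      exact_mod_cast hup
    rw [Nat.cast_add, Nat.cast_mul, Nat.cast_sub hqp.one_lt.le] at h7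
    push_cast at h7 ⊢
    exact h7
  have hkey : 1 / ((q : ℝ) * cc q (ee q d v k)) * ((q * (A * q ^ (v * d)) : ℕ) : ℝ) ≤ y * A := by
    push_cast
    rw [div_mul_eq_mul_div, one_mul, div_le_iff₀ (by positivity)]
    calc (q : ℝ) * (A * (q : ℝ) ^ (v * d)) = (q * A) * (q : ℝ) ^ (v * d) := by ring
      _ ≤ (q * A) * (y * cc q (ee q d v k)) := mul_le_mul_of_nonneg_left hcovr (by positivity)
      _ = y * A * (q * cc q (ee q d v k)) := by ring
  refine ⟨_, hd', ?_, ?_⟩
  · rw [le_div_iff₀ hQr]
    exact hkey.trans hc2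
  · rw [div_le_iff₀ hQr]
    have h8 : (1 - ((q : ℝ) - 1) / ((q : ℝ) * cc q (ee q d v k))) * ((q * (A * q ^ (v * d)) : ℕ) : ℝ)
        = ((q * (A * q ^ (v * d)) : ℕ) : ℝ)
          - ((q : ℝ) - 1) * (1 / ((q : ℝ) * cc q (ee q d v k)) * ((q * (A * q ^ (v * d)) : ℕ) : ℝ)) := by
      ring
    rw [h8]
    have h9 : ((q : ℝ) - 1) * (1 / ((q : ℝ) * cc q (ee q d v k)) * ((q * (A * q ^ (v * d)) : ℕ) : ℝ))
        ≤ ((q : ℝ) - 1) * (y * A) := mul_le_mul_of_nonneg_left hkey (by linarith)
    linarith

end

end Pool.Agent.RP28
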