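import Mathlib
import Pool.Agent.RP28.Alg
import Pool.Agent.RP28.Struct

namespace Pool.Agent.RP28

open Finset

def wt (q D : ℕ) : ℕ := ((range (D + 1)).filter (fun l => ¬ q ∣ D.choose l)).card

lemma cc_succ (q D : ℕ) : cc q (D + 1) = wt q D := by
  unfold cc wt; simp

lemma cc_le (q m : ℕ) : cc q m ≤ m := by
  unfold cc
  refine (Finset.card_filter_le _ _).trans ?_
  simp

lemma not_dvd_choose (q r b : ℕ) (hq : q.Prime) (hr : r < q) (hb : b ≤ r) : ¬ q ∣ r.choose b := by
  intro h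
  have h1 : q ∣ r.factorial := by
    rw [← Nat.choose_mul_factorial_mul_factorial hb, mul_assoc]
    exact Dvd.dvd.mul_right h _
  rw [hq.dvd_factorial] at h1
  omega

lemma wt_step (q X r : ℕ) (hq : q.Prime) (hr : r < q) : wt q (q * X + r) = (r + 1) * wt q X := by
  haveI : Fact q.Prime := ⟨hq⟩
  have hq0 := hq.pos
  have key : ∀ l, (¬ q ∣ (q * X + r).choose l) ↔ (l % q ≤ r ∧ ¬ q ∣ X.choose (l / q)) := by
    intro l
    have hL := Choose.choose_modEq_choose_mod_mul_choose_div_nat (p := q) (n := q * X + r) (k := l)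
    have e1 : (q * X + r) % q = r := by
      rw [Nat.mul_add_mod, Nat.mod_eq_of_lt hr]
    have e2 : (q * X + r) / q = X := by
      rw [Nat.mul_add_div hq0, Nat.div_eq_of_lt hr, Nat.add_zero]
    rw [e1, e2] at hL
    have h3 : q ∣ (q * X + r).choose l ↔ q ∣ r.choose (l % q) * X.choose (l / q) :=
      (Nat.ModEq.dvd_iff hL dvd_rfl)
    rw [h3, hq.dvd_mul, not_or]
    constructor
    · rintro ⟨h4, h5⟩
      refine ⟨?_, h5⟩
      by_contra h6
      apply h4
      rw [Nat.choose_eq_zero_of_lt (by omega)]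
      exact dvd_zero _
    · rintro ⟨h4, h5⟩
      exact ⟨not_dvd_choose q r _ hq hr h4, h5⟩
  have hc : (r + 1) * wt q X = ((range (r + 1)) ×ˢ ((range (X + 1)).filter (fun l => ¬ q ∣ X.choose l))).card := by
    rw [card_product, card_range]; rfl
  rw [hc]
  unfold wt
  apply Finset.card_nbij' (fun l => (l % q, l / q)) (fun p => q * p.2 + p.1)
  · intro l hl
    rw [mem_coe, mem_filter, mem_range, key] at hl
    simp only [coe_product, Set.mem_prod, mem_coe, mem_range, mem_filter]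
    refine ⟨by omega, ?_, hl.2.2⟩
    by_contra h
    apply hl.2.2
    rw [Nat.choose_eq_zero_of_lt (by omega)]
    exact dvd_zero _
  · rintro ⟨b, m⟩ hp
    simp only [coe_product, Set.mem_prod, mem_coe, mem_range, mem_filter] at hp
    rw [mem_coe, mem_filter, mem_range, key]
    have e1 : (q * m + b) % q = b := by
      rw [Nat.mul_add_mod, Nat.mod_eq_of_lt (by omega)]
    have e2 : (q * m + b) / q = m := by
      rw [Nat.mul_add_div hq0, Nat.div_eq_of_lt (by omega), Nat.add_zero]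
    simp only
    rw [e1, e2]
    refine ⟨?_, by omega, hp.2.2⟩
    have : q * m ≤ q * X := Nat.mul_le_mul_left _ (by omega)
    omega
  · intro l hl
    simp only
    exact Nat.div_add_mod l q
  · rintro ⟨b, m⟩ hp
    simp only [coe_product, Set.mem_prod, mem_coe, mem_range, mem_filter] at hp
    have e1 : (q * m + b) % q = b := by
      rw [Nat.mul_add_mod, Nat.mod_eq_of_lt (by omega)]
    have e2 : (q * m + b) / q = m := by
      rw [Nat.mul_add_div hq0, Nat.div_eq_of_lt (by omega), Nat.add_zero]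
    simp only
    rw [e1, e2]

lemma wt_zero (q : ℕ) (hq : q.Prime) : wt q 0 = 1 := by
  unfold wt
  simp [hq.one_lt.ne', Finset.filter_singleton]

lemma wt_lt (q r : ℕ) (hq : q.Prime) (hr : r < q) : wt q r = r + 1 := by
  have := wt_step q 0 r hq hr
  rwa [mul_zero, zero_add, wt_zero q hq, mul_one] at this

lemma wt_mul (q s X Y : ℕ) (hq : q.Prime) (hY : Y < q ^ s) :
    wt q (q ^ s * X + Y) = wt q X * wt q Y := by
  induction s generalizing Y with
  | zero =>
    have : Y = 0 := by simpa using hY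
    subst this
    rw [wt_zero q hq]; simp
  | succ s ih =>
    have hY2 : Y / q < q ^ s := by
      rw [Nat.div_lt_iff_lt_mul hq.pos, ← pow_succ]; exact hY
    have hmod : Y % q < q := Nat.mod_lt _ hq.pos
    have e1 : q ^ (s + 1) * X + Y = q * (q ^ s * X + Y / q) + Y % q := by
      conv_lhs => rw [← Nat.div_add_mod Y q]
      ring
    rw [e1, wt_step q _ _ hq hmod, ih _ hY2]
    conv_rhs => rw [← Nat.div_add_mod Y q, wt_step q _ _ hq hmod]
    ring

lemma wt_pow_sub_one (q s : ℕ) (hq : q.Prime) : wt q (q ^ s - 1) = q ^ s := by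
  induction s with
  | zero => simpa using wt_zero q hq
  | succ s ih =>
    have h1 : 1 ≤ q ^ s := Nat.one_le_pow _ _ hq.pos
    have hq2 := hq.two_le
    have e1 : q ^ (s + 1) - 1 = q * (q ^ s - 1) + (q - 1) := by
      rw [Nat.mul_sub, mul_one, pow_succ, mul_comm q (q ^ s)]
      have : q ≤ q ^ s * q := Nat.le_mul_of_pos_left _ h1
      omega
    rw [e1, wt_step q _ _ hq (by omega), ih, Nat.sub_add_cancel (by omega), pow_succ]
    ring

def RR (q d : ℕ) : ℕ → ℕ
  | 0 => 0
  | m + 1 => q ^ (d - 1) * RR q d m + 1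

lemma wt_RR (q d m : ℕ) (hq : q.Prime) (hd : 2 ≤ d) : wt q ((q - 1) * RR q d m) = q ^ m := by
  have hq2 := hq.two_le
  induction m with
  | zero => simpa [RR] using wt_zero q hq
  | succ m ih =>
    have hlt : q - 1 < q ^ (d - 1) := by
      have : q ^ 1 ≤ q ^ (d - 1) := Nat.pow_le_pow_right hq.pos (by omega)
      rw [pow_one] at this; omega
    have e1 : (q - 1) * RR q d (m + 1) = q ^ (d - 1) * ((q - 1) * RR q d m) + (q - 1) := by
      simp only [RR]; ring
    rw [e1, wt_mul q _ _ _ hq hlt, ih, wt_lt q _ hq (by omega), Nat.sub_add_cancel (by omega),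
      pow_succ]

lemma T_pow (q d v : ℕ) (hq : q.Prime) (hd : 2 ≤ d) :
    ∑ j ∈ range (q ^ (v + 1)), hh q d j = (q - 1) * q ^ v * RR q d (v + 1) := by
  induction v with
  | zero =>
    have := sum_mul q d 1 hq
    rw [mul_one] at this
    rw [zero_add, pow_one, this]
    simp [RR, hh]
  | succ v ih =>
    have e1 : q ^ (v + 1 + 1) = q * q ^ (v + 1) := by ring
    rw [e1, sum_mul q d _ hq, ih]
    have e2 : RR q d (v + 1 + 1) = q ^ (d - 1) * RR q d (v + 1) + 1 := rfl
    rw [e2]
    have e3 : q ^ d = q ^ (d - 1) * q := by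
      rw [← pow_succ]; congr 1; omega
    rw [e3]; ring

lemma ee_pow (q d v : ℕ) (hq : q.Prime) (hd : 2 ≤ d) :
    ee q d (v + 1) (q ^ (v + 1)) = (q - 1) * q ^ v * RR q d (v + 1) := by
  rw [← T_pow q d v hq hd]
  unfold ee
  have h1 : (Icc 1 (q ^ (v + 1))).erase (q ^ (v + 1)) = (range (q ^ (v + 1))).erase 0 := by
    ext j
    simp only [mem_erase, mem_Icc, mem_range]
    omega
  rw [h1]
  have h2 : ∑ j ∈ (range (q ^ (v + 1))).erase 0, q ^ (d * j.factorization q)
      = ∑ j ∈ (range (q ^ (v + 1))).erase 0, hh q d j := by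
    apply Finset.sum_congr rfl
    intro j hj
    rw [mem_erase] at hj
    unfold hh
    rw [if_neg hj.1]
  rw [h2, Finset.sum_erase]
  simp [hh]

lemma cc_pow (q d v : ℕ) (hq : q.Prime) (hd : 2 ≤ d) :
    cc q (ee q d (v + 1) (q ^ (v + 1))) = (q - 1) * q ^ (2 * v) := by
  have hq2 := hq.two_le
  have h1 : 1 ≤ q ^ v := Nat.one_le_pow _ _ hq.pos
  have hX : (q - 1) * q ^ v * RR q d (v + 1)
      = (q ^ (v + d - 1) * ((q - 1) * RR q d v) + ((q ^ v * (q - 2)) + (q ^ v - 1))) + 1 := by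
    have e2 : RR q d (v + 1) = q ^ (d - 1) * RR q d v + 1 := rfl
    have e3 : q ^ (v + d - 1) = q ^ v * q ^ (d - 1) := by
      rw [← pow_add]; congr 1; omega
    rw [e2, e3]
    obtain ⟨r, hr⟩ : ∃ r, q = r + 2 := ⟨q - 2, by omega⟩
    obtain ⟨w, hw⟩ : ∃ w, q ^ v = w + 1 := ⟨q ^ v - 1, by omega⟩
    rw [hw, hr]
    have e4 : r + 2 - 1 = r + 1 := by omega
    have e5 : r + 2 - 2 = r := by omega
    have e6 : w + 1 - 1 = w := by omega
    rw [e4, e5, e6]
    ring
  have hlt : (q ^ v * (q - 2)) + (q ^ v - 1) < q ^ (v + d - 1) := by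
    have h3 : q ^ (v + 1) ≤ q ^ (v + d - 1) := Nat.pow_le_pow_right hq.pos (by omega)
    have h4 : q ^ v * (q - 2) + q ^ v + q ^ v = q ^ (v + 1) := by
      obtain ⟨r, hr⟩ : ∃ r, q = r + 2 := ⟨q - 2, by omega⟩
      have e5 : q - 2 = r := by omega
      rw [e5, pow_succ]
      have : q ^ v * q = q ^ v * (r + 2) := by rw [← hr]
      rw [this]; ring
    omega
  rw [ee_pow q d v hq hd, hX, cc_succ, wt_mul q _ _ _ hq hlt, wt_RR q d v hq hd,
    wt_mul q _ _ _ hq (by omega), wt_lt q _ hq (by omega), wt_pow_sub_one q v hq]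
  have : q - 2 + 1 = q - 1 := by omega
  rw [this]
  ring

end Pool.Agent.RP28
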